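import Pool.Agent.helper47.CL.SpecD

set_option autoImplicit false

namespace Pool.Agent.helper41.CL

open Finset

/-- Cases 1 and 2: `q = t + 2`. -/
theorem ZR_ao (h1 : ZB_stmt) (h3 : AO_stmt) (α : Type) [DecidableEq α] (V : Finset α) (E : Finset (Finset α)) (t : ℕ)
    (hG : Gr V E) (hV : #V = 2 * (t + 2)) (hE : #E ≤ t) :
    2 ^ t * (t + 8) ≤ 2 * #(ind V E (t + 3)) := by
  have hb := h1 α V E (t + 1) hG (by omega)
  have hk : #V - (t + 1) = t + 3 := by omega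
  rw [hk] at hb
  have ha := h3 α V E t hG hE (by omega)
  have hs : 2 * #V - 3 * t = t + 8 := by omega
  rw [hs, hb] at ha
  exact ha

theorem ZR (h1 : ZB_stmt) (h2 : AZ_stmt) (h3 : AO_stmt) : ZR_stmt := by
  intro α _ V E q hG hV
  refine ⟨fun hE => ?_, fun hE => ?_, fun hE => ?_⟩
  · obtain ⟨t, rfl⟩ : ∃ t, q = t + 2 := ⟨q - 2, by omega⟩
    have h := ZR_ao h1 h3 α V E t hG hV (by omega)
    have ht : 1 ≤ t := by omega
    have h9 : 2 ^ t * 9 ≤ 2 ^ t * (t + 8) := Nat.mul_le_mul_left _ (by omega)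
    have hp : 2 ^ (t + 2) = 4 * 2 ^ t := by ring
    have hq : t + 2 + 1 = t + 3 := by omega
    rw [hp, hq]
    omega
  · obtain ⟨t, rfl⟩ : ∃ t, q = t + 2 := ⟨q - 2, by omega⟩
    have h := ZR_ao h1 h3 α V E t hG hV (by omega)
    have h9 : 2 ^ t * 8 ≤ 2 ^ t * (t + 8) := Nat.mul_le_mul_left _ (by omega)
    have hp : 2 ^ (t + 2) = 4 * 2 ^ t := by ring
    have hq : t + 2 + 1 = t + 3 := by omega
    rw [hp, hq]
    omega
  · obtain ⟨t, rfl⟩ : ∃ t, q = t + 1 := ⟨q - 1, by omega⟩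
    have hb := h1 α V E t hG (by omega)
    have hk : #V - t = t + 2 := by omega
    rw [hk] at hb
    have ha := h2 α V E t hG (by omega) (by omega)
    rw [hb] at ha
    have hp : 2 ^ (t + 1) = 2 * 2 ^ t := by ring
    have hq : t + 1 + 1 = t + 2 := by omega
    rw [hp, hq]
    omega

end Pool.Agent.helper41.CL
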