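import Pool.Agent.helper47.CL.SpecC

/-! Row `cl:YG` (MP_d9d598_co), second prover. -/

set_option autoImplicit false

namespace Pool.Agent.helper41.CL

open Finset

theorem YG2_other {α : Type} [DecidableEq α] {V : Finset α} {E : Finset (Finset α)} (hG : Gr V E) {e : Finset α}
    (he : e ∈ E) {p : α} (hp : p ∈ e) : ∃ a, a ≠ p ∧ e = {p, a} := by
  obtain ⟨x, y, hxy, rfl⟩ := Finset.card_eq_two.mp (hG e he).2
  rcases Finset.mem_insert.mp hp with h | h
  · subst h
    exact ⟨y, fun h => hxy h.symm, rfl⟩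
  · rw [Finset.mem_singleton] at h
    subst h
    exact ⟨x, hxy, Finset.pair_comm _ _⟩

theorem YG2_two {α : Type} [DecidableEq α] {E : Finset (Finset α)} {p : α} (h : #(inc E p) = 2) {e : Finset α}
    (he : e ∈ E) (hp : p ∈ e) : ∃ f ∈ E, p ∈ f ∧ f ≠ e ∧ ∀ g ∈ E, p ∈ g → g = e ∨ g = f := by
  obtain ⟨x, y, hxy, hxy2⟩ := card_eq_two.mp h
  have hm : ∀ g, g ∈ E → p ∈ g → g = x ∨ g = y := by
    intro g hg hpg
    have : g ∈ inc E p := by
      rw [inc, mem_filter]
      exact ⟨hg, hpg⟩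
    rw [hxy2] at this
    simpa using this
  have hx : x ∈ E ∧ p ∈ x := by
    have : x ∈ inc E p := by
      rw [hxy2]
      simp
    rwa [inc, mem_filter] at this
  have hy : y ∈ E ∧ p ∈ y := by
    have : y ∈ inc E p := by
      rw [hxy2]
      simp
    rwa [inc, mem_filter] at this
  rcases hm e he hp with rfl | rfl
  · exact ⟨y, hy.1, hy.2, fun h => hxy h.symm, hm⟩
  · exact ⟨x, hx.1, hx.2, hxy, fun g hg hpg => (hm g hg hpg).symm⟩

theorem YG2_c1 (h1 : AZ_stmt) (h2 : SP_stmt) {α : Type} [DecidableEq α] (V : Finset α) (E : Finset (Finset α)) (c : ℕ)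
    (hG : Gr V E) (hc : 3 ≤ c) (hE : #E = c + 2) (hV : #V = 2 * c) (p : α) (hp : 3 ≤ #(inc E p)) :
    2 ^ (c - 1) ≤ #(cov V E c) := by
  have hpV : p ∈ V := by
    obtain ⟨e, he⟩ := Finset.card_pos.mp (show 0 < #(inc E p) by omega)
    rw [inc, mem_filter] at he
    exact (hG e he.1).1 he.2
  obtain ⟨d, rfl⟩ : ∃ d, c = d + 1 := ⟨c - 1, by omega⟩
  have hsp := h2 α V E p d hpV
  have hfil : #(E.filter fun e => p ∈ e) + #(E.filter fun e => p ∉ e) = #E :=
    Finset.card_filter_add_card_filter_not (s := E) (fun e => p ∈ e)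
  have hinc : #(inc E p) = #(E.filter fun e => p ∈ e) := rfl
  have hG' : Gr (V.erase p) (E.filter fun e => p ∉ e) := by
    intro e he
    rw [mem_filter] at he
    refine ⟨?_, (hG e he.1).2⟩
    intro x hx
    rw [mem_erase]
    refine ⟨fun h => he.2 (h ▸ hx), (hG e he.1).1 hx⟩
  have := h1 α (V.erase p) (E.filter fun e => p ∉ e) d hG' (by omega)
    (by rw [card_erase_of_mem hpV]; omega)
  have hd : d + 1 - 1 = d := by omega
  rw [hd]
  omega

theorem YG2_sum {α : Type} [DecidableEq α] (V : Finset α) (f : α → ℕ) (h : ∀ x ∈ V, f x = 1 ∨ f x = 2) :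
    ∑ x ∈ V, f x = #V + #(V.filter fun x => f x = 2) := by
  rw [card_eq_sum_ones V, card_filter, ← sum_add_distrib]
  refine sum_congr rfl fun x hx => ?_
  rcases h x hx with h | h
  · rw [h]
    simp
  · rw [h]
    simp

theorem YG (h1 : AZ_stmt) (h2 : SP_stmt) (h3 : SD_stmt) (h4 : YX_stmt) (h5 : YE_stmt) (h6 : YF_stmt) :
    YG_stmt := by
  intro α _ V E c hG hc hE hV hcov
  by_cases hA : ∃ p, 3 ≤ #(inc E p)
  · obtain ⟨p, hp⟩ := hA
    exact YG2_c1 h1 h2 V E c hG hc hE hV p hp
  push Not at hA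
  have hdeg : ∀ v, #(inc E v) ≤ 2 := fun v => by
    have := hA v
    omega
  by_cases hB : ∀ e ∈ E, ∀ p ∈ e, ∀ x ∈ e, p ≠ x → #(inc E p) = 2 → #(inc E x) = 1
  · exact h6 α V E c hG hc hE hV hdeg hB
  push Not at hB
  obtain ⟨e, he, p, hpe, a, hae, hpa, hp2, ha1⟩ := hB
  have ha2 : #(inc E a) = 2 := by
    have h := hdeg a
    have : 0 < #(inc E a) := card_pos.mpr ⟨e, by rw [inc, mem_filter]; exact ⟨he, hae⟩⟩
    omega
  have heq : e = {p, a} := by
    obtain ⟨a', ha', h⟩ := YG2_other hG he hpe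
    rw [h, mem_insert, mem_singleton] at hae
    rcases hae with h' | h'
    · exact absurd h'.symm hpa
    · rw [h, h']
  subst heq
  obtain ⟨f', hf'E, hpf', hf'ne, hallp⟩ := YG2_two hp2 he hpe
  obtain ⟨f, hfE, haf, hfne, halla⟩ := YG2_two ha2 he hae
  obtain ⟨b, hbp, rfl⟩ := YG2_other hG hf'E hpf'
  have hab : a ≠ b := by
    rintro rfl
    exact hf'ne rfl
  have hpb : p ≠ b := fun h => hbp h.symm
  have hpf : p ∉ f := by
    intro h
    rcases hallp f hfE h with h' | h'
    · exact hfne h'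
    · rw [h', mem_insert, mem_singleton] at haf
      rcases haf with h'' | h''
      · exact hpa h''.symm
      · exact hab h''
  have hfpb : f ≠ {p, b} := by
    rintro rfl
    exact hpf (by simp)
  set M : Finset (Finset α) := E.filter fun e => ¬ (p ∉ e ∧ a ∉ e ∧ b ∉ e) with hMdef
  set E0 : Finset (Finset α) := E.filter fun e => p ∉ e ∧ a ∉ e ∧ b ∉ e with hE0def
  have hfil : #E0 + #M = #E :=
    Finset.card_filter_add_card_filter_not (s := E) (fun e => p ∉ e ∧ a ∉ e ∧ b ∉ e)
  have hsub : ({{p, a}, {p, b}, f} : Finset (Finset α)) ⊆ M := by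
    intro g hg
    rw [mem_insert, mem_insert, mem_singleton] at hg
    rw [hMdef, mem_filter]
    rcases hg with rfl | rfl | rfl
    · exact ⟨he, fun h => h.1 (by simp)⟩
    · exact ⟨hf'E, fun h => h.1 (by simp)⟩
    · exact ⟨hfE, fun h => h.2.1 haf⟩
  have hcard3 : #({{p, a}, {p, b}, f} : Finset (Finset α)) = 3 := by
    rw [card_eq_three]
    exact ⟨{p, a}, {p, b}, f, fun h => hf'ne h.symm, fun h => hfne h.symm, fun h => hfpb h.symm, rfl⟩
  have hM3 : 3 ≤ #M := hcard3 ▸ card_le_card hsub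
  obtain ⟨hY1, hY2⟩ := h5 α V E c p a b hG hc hE hV he hf'E hpa hpb hab hallp
  by_cases hC : #E0 ≤ c - 2
  · exact hY1 hC
  by_cases hy : ∃ y ∈ V, y ≠ p ∧ ∀ e ∈ E, p ∉ e → y ∉ e
  · have hE0 : #E0 ≤ c - 1 := by omega
    exact hY2 hE0 hy
  push Not at hy
  exfalso
  have hMeq : ({{p, a}, {p, b}, f} : Finset (Finset α)) = M := by
    refine eq_of_subset_of_card_le hsub ?_
    rw [hcard3]
    omega
  have hM : ∀ g ∈ E, (p ∈ g ∨ a ∈ g ∨ b ∈ g) → g = {p, a} ∨ g = {p, b} ∨ g = f := by
    intro g hg h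
    have : g ∈ M := by
      rw [hMdef, mem_filter]
      refine ⟨hg, ?_⟩
      rintro ⟨h1, h2, h3⟩
      rcases h with h | h | h
      · exact h1 h
      · exact h2 h
      · exact h3 h
    rw [← hMeq, mem_insert, mem_insert, mem_singleton] at this
    exact this
  have hpV : p ∈ V := (hG _ he).1 (by simp)
  have haV : a ∈ V := (hG _ he).1 (by simp)
  have hbV : b ∈ V := (hG _ hf'E).1 (by simp)
  have hfab : f = {a, b} := by
    obtain ⟨g, hg, hpg, hbg⟩ := hy b hbV hbp
    have hgf : g = f := by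
      rcases hM g hg (Or.inr (Or.inr hbg)) with h | h | h
      · exact absurd (by rw [h]; simp) hpg
      · exact absurd (by rw [h]; simp) hpg
      · exact h
    subst hgf
    obtain ⟨z, hz, h⟩ := YG2_other hG hg haf
    rw [h, mem_insert, mem_singleton] at hbg
    rcases hbg with h' | h'
    · exact absurd h'.symm hab
    · rw [h, h']
  subst hfab
  have hb2 : #(inc E b) = 2 := by
    have h := hdeg b
    have hs : ({{p, b}, {a, b}} : Finset (Finset α)) ⊆ inc E b := by
      intro g hg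
      rw [mem_insert, mem_singleton] at hg
      rw [inc, mem_filter]
      rcases hg with rfl | rfl
      · exact ⟨hf'E, by simp⟩
      · exact ⟨hfE, by simp⟩
    have h2c : #({{p, b}, {a, b}} : Finset (Finset α)) = 2 := by
      rw [card_eq_two]
      exact ⟨{p, b}, {a, b}, fun h => hfpb h.symm, rfl⟩
    have := card_le_card hs
    omega
  have hdegV : ∀ x ∈ V, #(inc E x) = 1 ∨ #(inc E x) = 2 := by
    intro x hx
    by_cases hxp : x = p
    · right
      rw [hxp]
      exact hp2
    · obtain ⟨g, hg, -, hxg⟩ := hy x hx hxp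
      have h := hdeg x
      have : 0 < #(inc E x) := card_pos.mpr ⟨g, by rw [inc, mem_filter]; exact ⟨hg, hxg⟩⟩
      omega
  have hsd := h3 α V E hG
  rw [YG2_sum V (fun x => #(inc E x)) hdegV] at hsd
  set T : Finset α := V.filter fun x => #(inc E x) = 2 with hTdef
  have hT4 : #T = 4 := by omega
  have hTmem : ∀ x, x ∈ T ↔ x ∈ V ∧ #(inc E x) = 2 := by
    intro x
    rw [hTdef, mem_filter]
  have hpab : ({p, a, b} : Finset α) ⊆ T := by
    intro x hx
    rw [mem_insert, mem_insert, mem_singleton] at hx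
    rw [hTmem]
    rcases hx with rfl | rfl | rfl
    · exact ⟨hpV, hp2⟩
    · exact ⟨haV, ha2⟩
    · exact ⟨hbV, hb2⟩
  have hpab3 : #({p, a, b} : Finset α) = 3 := by
    rw [card_eq_three]
    exact ⟨p, a, b, hpa, hpb, hab, rfl⟩
  have hdiff : #(T \ {p, a, b}) = 1 := by
    rw [card_sdiff_of_subset hpab]
    omega
  obtain ⟨q, hq⟩ := card_eq_one.mp hdiff
  have hqT : q ∈ T \ {p, a, b} := by
    rw [hq]
    simp
  rw [mem_sdiff, hTmem] at hqT
  obtain ⟨⟨hqV, hq2⟩, hqn⟩ := hqT
  obtain ⟨e', he'⟩ := card_pos.mp (show 0 < #(inc E q) by omega)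
  rw [inc, mem_filter] at he'
  obtain ⟨he'E, hqe'⟩ := he'
  obtain ⟨x, hxq, rfl⟩ := YG2_other hG he'E hqe'
  have hqn' : q ≠ p ∧ q ≠ a ∧ q ≠ b := by
    rw [mem_insert, mem_insert, mem_singleton] at hqn
    push Not at hqn
    exact hqn
  have hxn : x ∉ ({p, a, b} : Finset α) := by
    intro hx
    rw [mem_insert, mem_insert, mem_singleton] at hx
    have hh : q ∈ ({p, a} : Finset α) ∨ q ∈ ({p, b} : Finset α) ∨ q ∈ ({a, b} : Finset α) := by
      have hm := hM {q, x} he'E (by
        rcases hx with rfl | rfl | rfl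
        · left
          simp
        · right
          left
          simp
        · right
          right
          simp)
      rcases hm with h | h | h
      · left
        rw [← h]
        simp
      · right
        left
        rw [← h]
        simp
      · right
        right
        rw [← h]
        simp
    simp only [mem_insert, mem_singleton] at hh
    obtain ⟨i1, i2, i3⟩ := hqn'
    tauto
  have hxV : x ∈ V := (hG _ he'E).1 (by simp)
  have hdeg1 : ∀ v, v ∉ ({p, a, b, q} : Finset α) → #(inc E v) ≤ 1 := by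
    intro v hv
    by_contra hcon
    have hv2 : #(inc E v) = 2 := by
      have := hdeg v
      omega
    have hvV : v ∈ V := by
      obtain ⟨g, hg⟩ := card_pos.mp (show 0 < #(inc E v) by omega)
      rw [inc, mem_filter] at hg
      exact (hG _ hg.1).1 hg.2
    rw [mem_insert, mem_insert, mem_insert, mem_singleton] at hv
    push Not at hv
    have : v ∈ T \ {p, a, b} := by
      rw [mem_sdiff, hTmem, mem_insert, mem_insert, mem_singleton]
      exact ⟨⟨hvV, hv2⟩, by tauto⟩
    rw [hq, mem_singleton] at this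
    exact hv.2.2.2 this
  have hfin := h4 α V E c p a b q x hG hE he hf'E hfE he'E hpa hpb hab (fun h => hxq h.symm) hqn hxn hdeg hdeg1
  obtain ⟨C, hC1, hC2⟩ := hcov x hxV
  exact hfin C hC1 hC2

end Pool.Agent.helper41.CL
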